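import Pool.Agent.Helper3.FC.Goals

/-!
# Project FC: the numerical combination F1 - F9 ==> AN
-/

set_option autoImplicit false

namespace Pool.Agent.Helper8.FC.FIN1

open scoped Classical BigOperators
open Pool.Agent.Helper3.FC

section core

variable {n : ℕ} {J : Fin n → Type} [∀ l, Fintype (J l)]

/-- average -/
noncomputable def Ee (ρ : ∀ l, J l → ℝ) (φ : ∀ l, J l → ℝ) : ℝ := (∑ l, ∑ i, ρ l i * φ l i) / n

theorem Ee_mono {ρ : ∀ l, J l → ℝ} (hρ : ∀ l i, 0 ≤ ρ l i) {φ ψ : ∀ l, J l → ℝ}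
    (h : ∀ l i, φ l i ≤ ψ l i) : Ee ρ φ ≤ Ee ρ ψ := by
  unfold Ee
  apply div_le_div_of_nonneg_right _ (by positivity)
  apply Finset.sum_le_sum; intro l _
  apply Finset.sum_le_sum; intro i _
  exact mul_le_mul_of_nonneg_left (h l i) (hρ l i)

theorem Ee_add (ρ φ ψ : ∀ l, J l → ℝ) : Ee ρ (fun l i => φ l i + ψ l i) = Ee ρ φ + Ee ρ ψ := by
  unfold Ee
  rw [← add_div]
  congr 1
  rw [← Finset.sum_add_distrib]
  apply Finset.sum_congr rfl; intro l _
  rw [← Finset.sum_add_distrib]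
  apply Finset.sum_congr rfl; intro i _
  ring

theorem Ee_smul (ρ φ : ∀ l, J l → ℝ) (c : ℝ) : Ee ρ (fun l i => c * φ l i) = c * Ee ρ φ := by
  unfold Ee
  rw [← mul_div_assoc]
  congr 1
  rw [Finset.mul_sum]
  apply Finset.sum_congr rfl; intro l _
  rw [Finset.mul_sum]
  apply Finset.sum_congr rfl; intro i _
  ring

theorem Ee_one (hn : 1 ≤ n) {ρ : ∀ l, J l → ℝ} (h1 : ∀ l, ∑ i, ρ l i = 1) (c : ℝ) :
    Ee ρ (fun _ _ => c) = c := by
  unfold Ee
  have : (∑ l, ∑ i, ρ l i * c) = n * c := by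
    have : ∀ l, ∑ i, ρ l i * c = c := by
      intro l; rw [← Finset.sum_mul, h1, one_mul]
    simp [this]
  rw [this]
  have hn' : (n : ℝ) ≠ 0 := by positivity
  field_simp

/-- the final arithmetic -/
theorem arith (A R V Z P fb EvF EzF EzH x4 : ℝ) (hA0 : 0 ≤ A) (hA1 : A ≤ 1 + 1 / 10000)
    (hR0 : 0 ≤ R) (hR : R ≤ 2 + 1 / 1000 - A)
    (hfb : fb ≤ 1 + 1 / 1000 - 3 / 4 * A)
    (hexc : x4 ≤ max 0 (R - 999 / 1000) + 87 / 1000 * R +
      4 * (2 - A) * (1 - (A + R) / 2) + 1 / 1000)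
    (hEvF : EvF ≤ 4 / 3 * (fb - R / 4 + x4 / 4) + 1 / 10000)
    (hZ : Z = EzF + EzH)
    (hEzH : EzH ≤ 4 * (1 - fb) - 3 * (V - EvF) + 4 / 10000)
    (hw : 0 ≤ 4001 / 1000 * fb - EzF)
    (hP : P ≤ max 0 (2 - 2 * A + 9 / 4 *
      ((4001 / 1000 * fb - EzF) / (4001 / 1000 * (2497 / 10000)))) + 1 / 1000) :
    510 * A + 138 * R + 138 * V + 46 * Z + 20 * P ≤ 83751 / 100 := by
  set w := 4001 / 1000 * fb - EzF with hwdef
  have h1 : w / (4001 / 1000 * (2497 / 10000)) ≤ 10010 / 10000 * w := by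
    rw [div_le_iff₀ (by norm_num)]
    nlinarith
  have hP2 : P ≤ max 0 (2 - 2 * A) + 9 / 4 * (10010 / 10000 * w) + 1 / 1000 := by
    refine hP.trans ?_
    have h2 : max 0 (2 - 2 * A + 9 / 4 * (w / (4001 / 1000 * (2497 / 10000)))) ≤
        max 0 (2 - 2 * A) + 9 / 4 * (10010 / 10000 * w) := by
      apply max_le
      · have := le_max_left 0 (2 - 2 * A); nlinarith
      · have := le_max_right 0 (2 - 2 * A); linarith
    linarith
  have hEzF : EzF = 4001 / 1000 * fb - w := by rw [hwdef]; ring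
  have key : 510 * A + 138 * R + 138 * V + 46 * Z + 20 * P ≤
      510 * A + 92 * R + 46 * (4001 / 1000 * fb) + 46 * (4 + 7 / 10000) + 46 * x4 +
      20 * max 0 (2 - 2 * A) + 1 / 50 := by
    rw [hZ, hEzF]
    linarith
  refine key.trans ?_
  have h3 : 4 * (2 - A) * (1 - (A + R) / 2) = 2 * (2 - A) * (2 - A - R) := by ring
  rw [h3] at hexc
  -- cases
  rcases le_total 0 (R - 999 / 1000) with hr | hr <;> rcases le_total 0 (2 - 2 * A) with ha | ha
  · rw [max_eq_right hr] at hexc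
    rw [max_eq_right ha]
    nlinarith [mul_nonneg hA0 hR0, mul_nonneg (sub_nonneg.2 hA1) hR0,
      mul_nonneg (sub_nonneg.2 hA1) hA0, mul_nonneg (sub_nonneg.2 hA1) (sub_nonneg.2 hR),
      mul_nonneg hA0 (sub_nonneg.2 hR)]
  · rw [max_eq_right hr] at hexc
    rw [max_eq_left ha]
    nlinarith [mul_nonneg hA0 hR0, mul_nonneg (sub_nonneg.2 hA1) hR0,
      mul_nonneg (sub_nonneg.2 hA1) hA0, mul_nonneg (sub_nonneg.2 hA1) (sub_nonneg.2 hR),
      mul_nonneg hA0 (sub_nonneg.2 hR)]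
  · rw [max_eq_left hr] at hexc
    rw [max_eq_right ha]
    nlinarith [mul_nonneg hA0 hR0, mul_nonneg (sub_nonneg.2 hA1) hR0,
      mul_nonneg (sub_nonneg.2 hA1) hA0, mul_nonneg (sub_nonneg.2 hA1) (sub_nonneg.2 hR),
      mul_nonneg hA0 (sub_nonneg.2 hR)]
  · rw [max_eq_left hr] at hexc
    rw [max_eq_left ha]
    nlinarith [mul_nonneg hA0 hR0, mul_nonneg (sub_nonneg.2 hA1) hR0,
      mul_nonneg (sub_nonneg.2 hA1) hA0, mul_nonneg (sub_nonneg.2 hA1) (sub_nonneg.2 hR),
      mul_nonneg hA0 (sub_nonneg.2 hR)]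

theorem core (hn : 1 ≤ n) (ρ : ∀ l, J l → ℝ) (hρ : ∀ l i, 0 ≤ ρ l i) (h1 : ∀ l, ∑ i, ρ l i = 1)
    (F : ∀ l, J l → Prop) (x v z : ∀ l, J l → ℝ) (f zF : Fin n → ℝ) (A R P fb : ℝ)
    (hf : ∀ l, f l = ∑ i, if F l i then ρ l i else 0)
    (hzF : ∀ l, zF l = ∑ i, ρ l i * (if F l i then z l i else 0))
    (hfb : fb = (∑ l, f l) / n)
    (hx0 : ∀ l i, 0 ≤ x l i) (hxF : ∀ l i, ¬ F l i → x l i = 0)
    (hv0 : ∀ l i, 0 ≤ v l i)
    (hv : ∀ l i, v l i ≤ 4 / 3 * max 0 (1 - x l i / 4) + 1 / 10000)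
    (hz : ∀ l i, z l i ≤ 4 * max 0 (1 - 3 * v l i / 4) + 1 / 10000)
    (hEx : Ee ρ x = R)
    (hflo : ∀ l, 1 / 4 * (1 - 1 / 1000) ≤ f l)
    (hfb1 : fb ≤ 1 + 1 / 1000 - 3 / 4 * A)
    (hB : Ee ρ (fun l i => if 4 < x l i then x l i else 0) ≤
      R * ((∑ l, (∑ i, if 4 < x l i then ρ l i else 0) / f l) / n + 87 / 1000) +
      4 * (2 - A) * (1 - (A + R) / 2) + 1 / 1000)
    (hP : P ≤ max 0 (2 - 2 * A + 9 / 4 * ((∑ l, (1 - zF l / (f l * (4001 / 1000)))) / n)) +
      1 / 1000)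
    (hA0 : 0 ≤ A) (hA1 : A ≤ 1 + 1 / 10000) (hR : R ≤ 2 + 1 / 1000 - A) :
    510 * A + 138 * R + 138 * Ee ρ v + 46 * Ee ρ z + 20 * P ≤ 83751 / 100 := by
  have hn' : (0 : ℝ) < n := by exact_mod_cast hn
  have hR0 : 0 ≤ R := by
    rw [← hEx]
    have := Ee_mono (φ := fun _ _ => (0 : ℝ)) hρ hx0
    rw [Ee_one hn h1] at this
    exact this
  -- free groups
  have hfpos : ∀ l, 0 < f l := fun l => lt_of_lt_of_le (by norm_num) (hflo l)
  have hEF : Ee ρ (fun l i => if F l i then 1 else 0) = fb := by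
    rw [hfb]; unfold Ee
    congr 1
    apply Finset.sum_congr rfl; intro l _
    rw [hf l]
    apply Finset.sum_congr rfl; intro i _
    by_cases h : F l i <;> simp [h]
  have hFx : ∀ l i, 4 < x l i → F l i := by
    intro l i h
    by_contra hF
    rw [hxF l i hF] at h
    norm_num at h
  -- the excess
  set exc := Ee ρ (fun l i => max 0 (x l i / 4 - 1)) with hexcdef
  set PB := Ee ρ (fun l i => if 4 < x l i then 1 else 0) with hPB
  have hexc1 : 4 * exc ≤ Ee ρ (fun l i => if 4 < x l i then x l i else 0) - 4 * PB := by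
    have h2 : Ee ρ (fun l i => 4 * max 0 (x l i / 4 - 1) + 4 * (if 4 < x l i then (1 : ℝ) else 0)) ≤
        Ee ρ (fun l i => if 4 < x l i then x l i else 0) := by
      apply Ee_mono hρ
      intro l i
      by_cases h : 4 < x l i
      · rw [if_pos h, if_pos h, max_eq_right (by linarith)]; linarith
      · rw [if_neg h, if_neg h, max_eq_left (by linarith)]; linarith
    rw [Ee_add, Ee_smul, Ee_smul] at h2
    linarith
  set Pb := (∑ l, (∑ i, if 4 < x l i then ρ l i else 0) / f l) / n with hPb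
  have hb0 : ∀ l, 0 ≤ ∑ i, (if 4 < x l i then ρ l i else 0) := by
    intro l; apply Finset.sum_nonneg; intro i _
    split_ifs
    · exact hρ l i
    · exact le_rfl
  have hb1 : ∀ l, ∑ i, (if 4 < x l i then ρ l i else 0) ≤ f l := by
    intro l; rw [hf l]
    apply Finset.sum_le_sum; intro i _
    by_cases h : 4 < x l i
    · rw [if_pos h, if_pos (hFx l i h)]
    · rw [if_neg h]
      split_ifs
      · exact hρ l i
      · exact le_rfl
  have hPb0 : 0 ≤ Pb := by
    rw [hPb]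
    apply div_nonneg _ hn'.le
    apply Finset.sum_nonneg; intro l _
    exact div_nonneg (hb0 l) (hfpos l).le
  have hPb1 : Pb ≤ 1 := by
    rw [hPb, div_le_one hn']
    calc _ ≤ ∑ _l : Fin n, (1 : ℝ) := by
          apply Finset.sum_le_sum; intro l _
          rw [div_le_one (hfpos l)]; exact hb1 l
      _ = n := by simp
  have hPBPb : 999 / 4000 * Pb ≤ PB := by
    rw [hPb, hPB]; unfold Ee
    rw [← mul_div_assoc]
    apply div_le_div_of_nonneg_right _ hn'.le
    rw [Finset.mul_sum]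
    apply Finset.sum_le_sum; intro l _
    have h3 : ∑ i, ρ l i * (if 4 < x l i then (1 : ℝ) else 0) =
        ∑ i, (if 4 < x l i then ρ l i else 0) := by
      apply Finset.sum_congr rfl; intro i _
      by_cases h : 4 < x l i <;> simp [h]
    rw [h3, ← mul_div_assoc, div_le_iff₀ (hfpos l)]
    have := hflo l
    nlinarith [hb0 l]
  have hx4 : 4 * exc ≤ max 0 (R - 999 / 1000) + 87 / 1000 * R +
      4 * (2 - A) * (1 - (A + R) / 2) + 1 / 1000 := by
    have h4 : (R - 999 / 1000) * Pb ≤ max 0 (R - 999 / 1000) := by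
      rcases le_total 0 (R - 999 / 1000) with h | h
      · rw [max_eq_right h]; nlinarith
      · rw [max_eq_left h]; nlinarith
    nlinarith
  -- V on F
  set EvF := Ee ρ (fun l i => if F l i then v l i else 0) with hEvFdef
  have hEvF : EvF ≤ 4 / 3 * (fb - R / 4 + (4 * exc) / 4) + 1 / 10000 := by
    have h5 : EvF ≤ Ee ρ (fun l i => (4 / 3 * (if F l i then (1 : ℝ) else 0) +
        (- (1 / 3)) * x l i) + (4 / 3 * max 0 (x l i / 4 - 1) + 1 / 10000)) := by
      apply Ee_mono hρ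
      intro l i
      by_cases h : F l i
      · rw [if_pos h, if_pos h]
        have := hv l i
        rcases le_total 0 (x l i / 4 - 1) with h6 | h6
        · rw [max_eq_right h6]
          rw [max_eq_left (by linarith)] at this
          linarith
        · rw [max_eq_left h6]
          rw [max_eq_right (by linarith)] at this
          linarith
      · rw [if_neg h, if_neg h, hxF l i h]
        have h6 : max 0 ((0 : ℝ) / 4 - 1) = 0 := by norm_num
        rw [h6]
        norm_num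
    rw [Ee_add, Ee_add, Ee_smul, Ee_smul, hEF, hEx, Ee_add, Ee_smul, Ee_one hn h1] at h5
    linarith
  set EzF := Ee ρ (fun l i => if F l i then z l i else 0) with hEzFdef
  set EzH := Ee ρ (fun l i => if F l i then 0 else z l i) with hEzHdef
  have hZ : Ee ρ z = EzF + EzH := by
    rw [hEzFdef, hEzHdef, ← Ee_add]
    congr 1
    funext l i
    by_cases h : F l i <;> simp [h]
  have hEzH : EzH ≤ 4 * (1 - fb) - 3 * (Ee ρ v - EvF) + 4 / 10000 := by
    have h7 : EzH ≤ Ee ρ (fun l i => (40004 / 10000 + (-4) * (if F l i then (1 : ℝ) else 0)) +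
        ((-3) * v l i + 3 * (if F l i then v l i else 0))) := by
      apply Ee_mono hρ
      intro l i
      by_cases h : F l i
      · rw [if_pos h, if_pos h, if_pos h]
        linarith
      · rw [if_neg h, if_neg h, if_neg h]
        have a1 := hv l i
        rw [hxF l i h] at a1
        have a2 := hz l i
        have a3 : v l i ≤ 4 / 3 + 1 / 10000 := by
          rw [max_eq_right (by norm_num)] at a1
          linarith
        have a4 : max 0 (1 - 3 * v l i / 4) ≤ 1 - 3 * v l i / 4 + 3 / 4 * (1 / 10000) := by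
          apply max_le <;> linarith
        linarith
    rw [Ee_add, Ee_add, Ee_add, Ee_smul, Ee_smul, Ee_smul, hEF, Ee_one hn h1] at h7
    linarith
  have hzle : ∀ l i, z l i ≤ 4 + 1 / 10000 := by
    intro l i
    have a2 := hz l i
    have a4 : max 0 (1 - 3 * v l i / 4) ≤ 1 := by
      apply max_le
      · norm_num
      · have := hv0 l i; linarith
    linarith
  have hzFle : ∀ l, zF l ≤ 4001 / 1000 * f l := by
    intro l
    rw [hzF l, hf l, Finset.mul_sum]
    apply Finset.sum_le_sum; intro i _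
    by_cases h : F l i
    · rw [if_pos h, if_pos h]
      have := hzle l i
      nlinarith [hρ l i]
    · rw [if_neg h, if_neg h]; simp
  have hEzFsum : EzF = (∑ l, zF l) / n := by
    rw [hEzFdef]; unfold Ee
    congr 1
    apply Finset.sum_congr rfl; intro l _
    rw [hzF l]
  have hwsum : 4001 / 1000 * fb - EzF = (∑ l, (4001 / 1000 * f l - zF l)) / n := by
    rw [hEzFsum, hfb, Finset.sum_sub_distrib, ← Finset.mul_sum]
    field_simp
  have hw : 0 ≤ 4001 / 1000 * fb - EzF := by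
    rw [hwsum]
    apply div_nonneg _ hn'.le
    apply Finset.sum_nonneg; intro l _
    have := hzFle l; linarith
  have hP2 : P ≤ max 0 (2 - 2 * A + 9 / 4 *
      ((4001 / 1000 * fb - EzF) / (4001 / 1000 * (2497 / 10000)))) + 1 / 1000 := by
    refine hP.trans ?_
    have h8 : (∑ l, (1 - zF l / (f l * (4001 / 1000)))) / n ≤
        (4001 / 1000 * fb - EzF) / (4001 / 1000 * (2497 / 10000)) := by
      rw [hwsum, div_div, mul_comm (n : ℝ), ← div_div]
      apply div_le_div_of_nonneg_right _ hn'.le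
      rw [Finset.sum_div]
      apply Finset.sum_le_sum; intro l _
      have h9 : 1 - zF l / (f l * (4001 / 1000)) = (4001 / 1000 * f l - zF l) /
          (f l * (4001 / 1000)) := by
        have := (hfpos l).ne'
        field_simp
      rw [h9]
      apply div_le_div_of_nonneg_left
      · have := hzFle l; linarith
      · norm_num
      · have := hflo l; nlinarith
    have h10 : max 0 (2 - 2 * A + 9 / 4 * ((∑ l, (1 - zF l / (f l * (4001 / 1000)))) / n)) ≤
        max 0 (2 - 2 * A + 9 / 4 *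
      ((4001 / 1000 * fb - EzF) / (4001 / 1000 * (2497 / 10000)))) := by
      apply max_le_max le_rfl
      linarith
    linarith
  exact arith A R (Ee ρ v) (Ee ρ z) P fb EvF EzF EzH (4 * exc) hA0 hA1 hR0 hR hfb1 hx4 hEvF hZ hEzH
    hw hP2

end core

theorem scale8 (X S A Λ : ℝ) (h : 0 < Λ) :
    X * (S + 87 / 1000) + 4 * (2 * Λ - A) * (1 - (A + X) / (2 * Λ)) + Λ / 1000 =
    (X / Λ * (S + 87 / 1000) + 4 * (2 - A / Λ) * (1 - (A / Λ + X / Λ) / 2) + 1 / 1000) * Λ := by
  have := h.ne'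
  field_simp

/-- nonnegativity of the average densities -/
theorem v_nonneg {m n w kz L : ℕ} {η : ℝ} (W : World m n w kz L η) (l : Fin n) (i : W.J l) :
    0 ≤ W.v l i := by
  unfold World.v
  apply div_nonneg _ (Nat.cast_nonneg L)
  apply Finset.sum_nonneg; intro j hj
  exact W.yV_nonneg j (Finset.mem_range.1 hj) l i

theorem t (h1 : F1) (h2 : F2) (h3 : F3) (h4 : F4) (h5 : F5) (h6 : F6) (h7 : F7) (h8 : F8)
    (h9 : F9) (hp : PARStmt) : ANStmt := by
  obtain ⟨m1, h1⟩ := h1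
  obtain ⟨m2, h2⟩ := h2
  obtain ⟨m3, h3⟩ := h3
  obtain ⟨m4, h4⟩ := h4
  obtain ⟨m7, h7⟩ := h7
  obtain ⟨m8, h8⟩ := h8
  obtain ⟨m9, h9⟩ := h9
  obtain ⟨m0, hp⟩ := hp (1 / 100) (by norm_num)
  refine ⟨m0 + m1 + m2 + m3 + m4 + m7 + m8 + m9, ?_⟩
  intro m hm
  obtain ⟨hn, hw, -, hΛ, hΛ1, -⟩ := hp m (by omega)
  obtain ⟨L1, h1⟩ := h1 m (by omega)
  obtain ⟨L2, h2⟩ := h2 m (by omega)
  obtain ⟨L3, h3⟩ := h3 m (by omega)
  obtain ⟨L4, h4⟩ := h4 m (by omega)
  obtain ⟨L7, h7⟩ := h7 m (by omega)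
  obtain ⟨L8, h8⟩ := h8 m (by omega)
  obtain ⟨L9, h9⟩ := h9 m (by omega)
  refine ⟨L1 + L2 + L3 + L4 + L7 + L8 + L9, ?_⟩
  intro L hL W
  have g1 := h1 L (by omega) W
  have g2 := h2 L (by omega) W
  have g3 := h3 L (by omega) W
  have g4 := h4 L (by omega) W
  have g7 := h7 L (by omega) W
  have g8 := h8 L (by omega) W
  have g9 := h9 L (by omega) W
  beta_reduce at g1 g2 g3 g4 g7 g8 g9
  have hη0 : 0 ≤ pη m := by unfold pη; positivity
  have hη1 : pη m ≤ 1 := by unfold pη; linarith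
  have g5 := h5 m (pn m) (pw m) (pk m) L (pη m) W hη0 hη1
  have g6 := h6 m (pn m) (pw m) (pk m) L (pη m) W hn
  set Λ := Lam m with hΛdef
  have hn' : (0 : ℝ) < pn m := by exact_mod_cast hn
  have hw' : (0 : ℝ) < pw m := by exact_mod_cast hw
  -- bounds on A
  have hA0 : 0 ≤ W.A := by
    unfold World.A
    apply div_nonneg _ (by positivity)
    apply Finset.sum_nonneg; intro l _
    apply Finset.sum_nonneg; intro k _
    exact (g1 l k).1
  have hA1 : W.A ≤ Λ * (1 + 1 / 10000) := by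
    unfold World.A
    rw [div_le_iff₀ (by positivity)]
    calc _ ≤ ∑ _l : Fin (pn m), ∑ _k : Fin (pw m), Λ * (1 + 1 / 10000) := by
          apply Finset.sum_le_sum; intro l _
          apply Finset.sum_le_sum; intro k _
          exact (g1 l k).2
      _ = _ := by simp; ring
  have hE : ∀ φ : ∀ l, W.J l → ℝ, W.E φ = Ee W.ρ φ := fun φ => rfl
  have hsc : ∀ φ : ∀ l, W.J l → ℝ, Ee W.ρ (fun l i => φ l i / Λ) = Ee W.ρ φ / Λ := by
    intro φ
    have := Ee_smul W.ρ φ (1 / Λ)
    rw [show (fun l i => φ l i / Λ) = (fun l i => 1 / Λ * φ l i) by funext l i; ring, this]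
    ring
  have key := core (n := pn m) (J := W.J) hn W.ρ W.ρ_nonneg W.ρ_sum W.F
    (fun l i => W.x l i / Λ) (fun l i => W.v l i / Λ) (fun l i => W.z l i / Λ) W.f
    (fun l => W.zF l / Λ) (W.A / Λ) (W.X / Λ) (W.P / Λ) W.fbar
    (fun l => rfl)
    (by
      intro l
      show W.zF l / Λ = _
      unfold World.zF
      rw [Finset.sum_div]
      apply Finset.sum_congr rfl; intro i _
      by_cases h : W.F l i <;> simp [h, mul_div_assoc])
    rfl
    (fun l i => div_nonneg (g5 l i).1 hΛ.le)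
    (fun l i h => by show W.x l i / Λ = 0; rw [(g5 l i).2 h, zero_div])
    (fun l i => div_nonneg (v_nonneg W l i) hΛ.le)
    (fun l i => by
      show W.v l i / Λ ≤ _
      rw [div_le_iff₀ hΛ]
      have := g3 l i
      rw [show W.x l i / Λ / 4 = W.x l i / (4 * Λ) by rw [div_div, mul_comm]]
      linarith)
    (fun l i => by
      show W.z l i / Λ ≤ _
      rw [div_le_iff₀ hΛ]
      have := g4 l i
      rw [show 3 * (W.v l i / Λ) / 4 = 3 * W.v l i / (4 * Λ) by
        rw [← mul_div_assoc, div_div, mul_comm Λ 4]]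
      linarith)
    (by rw [hsc, ← hE, g6])
    (fun l => (g7.1 l).1)
    g7.2
    (by
      have hB := g8 (fun l i => 4 < W.x l i / Λ) (fun l i h => by
        by_contra hF
        rw [(g5 l i).2 hF, zero_div] at h
        norm_num at h)
      rw [hE] at hB
      have e1 : Ee W.ρ (fun l i => if 4 < W.x l i / Λ then W.x l i / Λ else 0) =
          Ee W.ρ (fun l i => if 4 < W.x l i / Λ then W.x l i else 0) / Λ := by
        rw [← hsc]
        congr 1
        funext l i
        by_cases h : 4 < W.x l i / Λ <;> simp [h]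
      rw [e1, div_le_iff₀ hΛ]
      refine hB.trans (le_of_eq ?_)
      exact scale8 _ _ _ _ hΛ)
    (by
      show W.P / Λ ≤ _
      rw [div_le_iff₀ hΛ]
      refine g9.trans (le_of_eq ?_)
      have e2 : ∀ l, W.zF l / (W.f l * (4001 / 1000 * Λ)) = W.zF l / Λ / (W.f l * (4001 / 1000)) := by
        intro l
        rw [div_div]
        congr 1
        ring
      simp only [e2]
      ring)
    (div_nonneg hA0 hΛ.le)
    (by rw [div_le_iff₀ hΛ]; linarith)
    (by
      rw [div_le_iff₀ hΛ]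
      have : (2 + 1 / 1000 - W.A / Λ) * Λ = Λ * (2 + 1 / 1000) - W.A := by field_simp
      rw [this]; exact g2)
  rw [hsc, hsc, ← hE, ← hE] at key
  change 510 * (W.A / Λ) + 138 * (W.X / Λ) + 138 * (W.V / Λ) + 46 * (W.Z / Λ) + 20 * (W.P / Λ) ≤
    83751 / 100 at key
  have key2 : 510 * W.A + 138 * W.X + 138 * W.V + 46 * W.Z + 20 * W.P ≤ 83751 / 100 * Λ := by
    have := mul_le_mul_of_nonneg_right key hΛ.le
    have e3 : (510 * (W.A / Λ) + 138 * (W.X / Λ) + 138 * (W.V / Λ) + 46 * (W.Z / Λ) +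
      20 * (W.P / Λ)) * Λ = 510 * W.A + 138 * W.X + 138 * W.V + 46 * W.Z + 20 * W.P := by
      field_simp
    rw [e3] at this
    exact this
  unfold World.tot
  rw [div_le_iff₀ (by norm_num)]
  linarith

end Pool.Agent.Helper8.FC.FIN1
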